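import Pool.Agent.Lib_helper78.SP.Few

/-!
# Oracles which do not cause a collapse of the polynomial hierarchy
-/

set_option autoImplicit false

namespace Pool.Agent.SP

open Pool.Agent.CK Pool.Agent.PHS Filter
open Pool.Agent.FS (Few)

/-- A collapse of the polynomial hierarchy relative to `R ⊕ W` only occurs if there is a collapse
relative to `R`: if `Σ_{k+1} = Σ_k` relative to `R ⊕ W` then `Σ_{k+4} = Σ_{k+3}` relative to `R`. -/
def NoCollapse (R W : Lang) : Prop :=
  ∀ k, (∀ L, InSig (join R W) (k + 1) L → InSig (join R W) k L) →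
    ∀ L, InSig R (k + 4) L → InSig R (k + 3) L

/-- so an infinite hierarchy stays infinite -/
theorem NoCollapse.infinite {R W : Lang} (h : NoCollapse R W)
    (hR : ∀ k, ∃ L, InSig R (k + 1) L ∧ ¬ InSig R k L) (k : ℕ) :
    ∃ L, InSig (join R W) (k + 1) L ∧ ¬ InSig (join R W) k L := by
  by_contra hcon
  push Not at hcon
  obtain ⟨L, h1, h2⟩ := hR (k + 3)
  exact h2 (h k hcon L h1)

theorem few_mono {α β : ℕ → ℕ} (h : ∀ n, β n ≤ α n) {W : Lang} (hW : Few β W) : Few α W :=
  fun n => (hW n).trans (h n)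

theorem few_min {α : ℕ → ℕ} (hα : Tendsto α atTop atTop) : ∃ β : ℕ → ℕ, Tendsto β atTop atTop ∧
    (∀ W, Few β W → Few α W) ∧ ∀ R W, Few β W → NoCollapse R W := by
  refine ⟨fun n => min (α n) n, ?_, fun W => few_mono fun n => min_le_left _ _,
    fun R W hW k h => ?_⟩
  · rw [tendsto_atTop]
    intro b
    filter_upwards [tendsto_atTop.1 hα b, eventually_ge_atTop b] with n h1 h2
    exact le_min h1 h2
  · refine sparse_collapse (c := 1) (few_mono (fun n => ?_) hW) k h
    rw [pow_one]
    exact (min_le_right _ _).trans (Nat.le_succ n)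

end Pool.Agent.SP
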