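import Pool.Agent.Lib_helper78.SP.Yap
import Pool.Agent.Lib_helper78.FS.True
import Pool.Agent.Lib_helper78.RO.F.EQT
import Pool.Agent.Lib_helper74.NF.ENPA

/-!
# Sparse oracles do not cause a collapse of the polynomial hierarchy
-/

set_option autoImplicit false

namespace Pool.Agent.SP

open Pool.Agent.CK Pool.Agent.CKP Pool.Agent.ADV Pool.Agent.RF Pool.Agent.PHS Pool.Agent.AIP
open Pool.Agent.RO (eqT eqT_bits PTime_eqT)
open Pool.Agent.FS (Few)

/-! ## Lists of strings -/

/-- the code of a list of strings -/
def encL : List (List Bool) → List Bool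
  | [] => []
  | s :: l => pairS s (encL l)

/-- one step of the search -/
def stepL (x : List Bool) (q : List Bool × Bool) : List Bool × Bool :=
  (sndS q.1, if q.1.isEmpty = true then q.2 else q.2 || eqT x (fstS q.1))

/-- the second component of `z` is the code of a list that contains the first component -/
def memL (z : List Bool) : Bool :=
  ((sndS z).foldl (fun q _ => stepL (fstS z) q) (sndS z, false)).2

theorem sndS_nil : sndS [] = [] := by
  unfold sndS restS
  simp [udrop_eq]

theorem pairS_ne (x y : List Bool) : (pairS x y).isEmpty = false := by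
  have h := pairS_len x y
  cases hp : pairS x y with
  | nil => rw [hp, List.length_nil] at h; omega
  | cons a t => rfl

theorem search_spec (x : List Bool) {α : Type} (N : List α) : ∀ (l : List (List Bool)) (b : Bool),
    l.length ≤ N.length →
    ((N.foldl (fun q _ => stepL x q) (encL l, b)).2 = true ↔ b = true ∨ x ∈ l) := by
  induction N with
  | nil =>
    intro l b hl
    have : l = [] := List.eq_nil_of_length_eq_zero (Nat.le_zero.1 hl)
    subst this
    simp
  | cons a N ih =>
    intro l b hl
    rw [List.foldl_cons]
    cases l with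
    | nil =>
      have e : stepL x (encL [], b) = (encL [], b) := by
        unfold stepL encL
        rw [sndS_nil]
        rfl
      rw [e, ih [] b (Nat.zero_le _)]
    | cons s l =>
      rw [List.length_cons, List.length_cons] at hl
      have e : stepL x (encL (s :: l), b) = (encL l, b || eqT x s) := by
        unfold stepL
        rw [encL, sndS_pair, fstS_pair, pairS_ne]
        rfl
      rw [e, ih l _ (by omega), Bool.or_eq_true, eqT_bits, List.mem_cons, or_assoc]

theorem encL_len_ge (l : List (List Bool)) : l.length ≤ (encL l).length := by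
  induction l with
  | nil => exact Nat.zero_le _
  | cons s l ih =>
    rw [encL, pairS_len, List.length_cons]
    omega

theorem encL_len_le (l : List (List Bool)) {n : ℕ} (h : ∀ s ∈ l, s.length ≤ n) :
    (encL l).length ≤ l.length * (2 * n + 1) := by
  induction l with
  | nil => exact Nat.zero_le _
  | cons s l ih =>
    have h1 := ih (fun s hs => h s (List.mem_cons_of_mem _ hs))
    have h2 := h s List.mem_cons_self
    rw [encL, pairS_len, List.length_cons, Nat.add_mul, Nat.one_mul]
    omega

theorem memL_iff (x : List Bool) (l : List (List Bool)) :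
    memL (pairS x (encL l)) = true ↔ x ∈ l := by
  unfold memL
  rw [fstS_pair, sndS_pair, search_spec x (encL l) l false (encL_len_ge l)]
  simp

theorem sz_sndS (y : List Bool) : sz (sndS y) ≤ sz y := by
  unfold sndS restS
  exact (sz_udrop_le _ _).trans (sz_udrop_le _ _)

theorem memL_ptime {O : Lang} : PTime O memL := by
  have hx : PTime O (fun z : List Bool => fstS z) := PTime_fstS PTime.id
  have hu : PTime O (fun z : List Bool => sndS z) := PTime_sndS PTime.id
  have h : PTime O (fun z : List Bool =>
      (sndS z).foldl (fun q _ => stepL (fstS z) q) (sndS z, false)) := by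
    refine PTime.foldl_add (l := fun z : List Bool => sndS z)
      (i := fun z : List Bool => (sndS z, false))
      (s := fun z q _ => stepL (fstS z) q) hu (hu.pair (PTime.const false)) ?_
      (Polynomial.C 4) ?_
    · have h1 : PTime O (fun p : List Bool × (List Bool × Bool) × Bool => p.2.1.1) :=
        PTime.id.snd.fst.fst
      have h2 : PTime O (fun p : List Bool × (List Bool × Bool) × Bool => p.2.1.2) :=
        PTime.id.snd.fst.snd
      have h3 : PTime O (fun p : List Bool × (List Bool × Bool) × Bool => fstS p.1) :=
        PTime_fstS PTime.id.fst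
      exact (PTime_sndS h1).pair (PTime.ite (PTime.isNil h1) h2
        (h2.or (PTime_eqT h3 (PTime_fstS h1))))
    · intro z q a _
      rw [Polynomial.eval_C]
      have h1 : sz (stepL (fstS z) q) = sz (sndS q.1) + sz (stepL (fstS z) q).2 + 1 := rfl
      have h2 : sz q = sz q.1 + sz q.2 + 1 := rfl
      have h3 := sz_sndS q.1
      have h4 := sz_bool_le (stepL (fstS z) q).2
      omega
  exact h.snd

/-! ## Sparse oracles -/

theorem exists_words {W : Lang} {c : ℕ} (hW : Few (fun n => n ^ c + c) W) :
    ∃ w : ℕ → List Bool, (∀ n, (w n).length ≤ (n + 2) ^ (2 * c + 4)) ∧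
      ∀ (n : ℕ) (x : List Bool), x.length ≤ n → W x = memL (pairS x (w n)) := by
  classical
  have hfin : ∀ n, {x : List Bool | x.length ≤ n ∧ W x = true}.Finite := fun n =>
    (List.finite_length_le Bool n).subset (fun x hx => hx.1)
  refine ⟨fun n => encL (hfin n).toFinset.toList, fun n => ?_, fun n x hx => ?_⟩
  · have h1 := encL_len_le (hfin n).toFinset.toList (n := n) (fun s hs => by
      rw [Finset.mem_toList, Set.Finite.mem_toFinset] at hs
      exact hs.1)
    have h2 : (hfin n).toFinset.toList.length ≤ n ^ c + c := by
      rw [Finset.length_toList]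
      have := hW n
      rwa [Set.ncard_eq_toFinset_card _ (hfin n)] at this
    refine h1.trans ((Nat.mul_le_mul_right _ h2).trans ?_)
    have h3 : n ^ c ≤ (n + 2) ^ c := Nat.pow_le_pow_left (by omega) _
    have h4 : c ≤ (n + 2) ^ c := by
      have h5 : c < 2 ^ c := Nat.lt_two_pow_self
      have h6 : 2 ^ c ≤ (n + 2) ^ c := Nat.pow_le_pow_left (by omega) _
      omega
    have h5 : 2 * n + 1 ≤ (n + 2) ^ 2 := by nlinarith
    have h6 : 2 ≤ (n + 2) ^ 1 := by rw [pow_one]; omega
    calc (n ^ c + c) * (2 * n + 1) ≤ ((n + 2) ^ 1 * (n + 2) ^ c) * (n + 2) ^ 2 := by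
          refine Nat.mul_le_mul ?_ h5
          calc n ^ c + c ≤ 2 * (n + 2) ^ c := by omega
            _ ≤ _ := Nat.mul_le_mul_right _ h6
      _ = (n + 2) ^ (1 + c + 2) := by rw [← pow_add, ← pow_add]
      _ ≤ (n + 2) ^ (2 * c + 4) := Nat.pow_le_pow_right (by omega) (by omega)
  · rw [Bool.eq_iff_iff, memL_iff, Finset.mem_toList, Set.Finite.mem_toFinset]
    exact ⟨fun h => ⟨hx, h⟩, fun h => h.2⟩

/-- **Sparse oracles do not cause a collapse.** -/
theorem sparse_collapse {R W : Lang} {c : ℕ} (hW : Few (fun n => n ^ c + c) W) (k : ℕ)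
    (h : ∀ L, InSig (join R W) (k + 1) L → InSig (join R W) k L) :
    ∀ L, InSig R (k + 4) L → InSig R (k + 3) L := by
  obtain ⟨w, hw1, hw2⟩ := exists_words hW
  exact yap hw1 k fun L hL => adv_sig (inP_of memL_ptime) hw2 k L (h L (sig_mono (k + 1) L hL))

end Pool.Agent.SP
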