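import Pool.Agent.Lib_helper78.AIP.KL
import Pool.Agent.Lib_helper74.PHS.UP

/-!
# A collapse with polynomial advice gives a collapse without advice (Karp and Lipton, Yap)
-/

set_option autoImplicit false

namespace Pool.Agent.SP

open Pool.Agent.CK Pool.Agent.CKP Pool.Agent.ADV Pool.Agent.RF Pool.Agent.PHS Pool.Agent.AIP

/-- `L` is `t` levels above `B` -/
def Up (R B : Lang) : ℕ → Lang → Prop
  | 0, L => L = B
  | t + 1, L => ∃ B', Up R B t B' ∧ InNP (join R B') L

theorem up_of_sig {R : Lang} (k : ℕ) : ∀ (t : ℕ) (L : Lang), InSig R (k + t) L →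
    ∃ B, InSig R k B ∧ Up R B t L := by
  intro t
  induction t with
  | zero => intro L hL; exact ⟨L, hL, rfl⟩
  | succ t ih =>
    rintro L ⟨B', hB', hL⟩
    obtain ⟨B, hB, hU⟩ := ih B' hB'
    exact ⟨B, hB, B', hU, hL⟩

/-- the advice `u` is correct up to the length `N` -/
def Cor (B D : Lang) (u : List Bool) (N : ℕ) : Prop :=
  ∀ z : List Bool, z.length ≤ N → B z = D (pairS z u)

/-- the oracle `R ⊕ E` with the advice `u` for `E` -/
def OvE (R E : Lang) (u : List Bool) : Lang := join R (fun y => E (pairS y u))

theorem OvE_ptime {R E X : Lang} (hR : PTime X (fun q : List Bool => R q))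
    (hE : PTime X (fun q : List Bool => E q)) :
    PTime X (fun p : List Bool × List Bool => OvE R E p.1 p.2) :=
  p_join (P := fun _ => R) (Q := fun u y => E (pairS y u)) (hR.comp PTime.id.snd)
    (hE.comp (p_pairS PTime.id.snd PTime.id.fst))

theorem up_adv {R B D : Lang} {k : ℕ} (hD : InSig R k D) : ∀ (t : ℕ) (L : Lang), Up R B t L →
    ∃ E, InSig R (k + t) E ∧ ∃ c : ℕ, ∀ x u : List Bool, Cor B D u ((x.length + 2) ^ c) →
      L x = E (pairS x u) := by
  intro t
  induction t with
  | zero =>
    rintro L rfl
    exact ⟨D, hD, 1, fun x u h => h x (by rw [pow_one]; omega)⟩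
  | succ t ih =>
    rintro L ⟨B', hB', c, e, -, hc⟩
    obtain ⟨E, hE, cE, hBE⟩ := ih B' hB'
    classical
    refine ⟨fun z => decide (∃ y, simV (OvE R E) c e (z, y) = true), ⟨E, hE, ?_⟩,
      (e + 2) * (cE + 1), fun x u hu => ?_⟩
    · refine inNP_of (simV_ptime (OvE_ptime (PTime.lift (PTime.ask PTime.id))
        (PTime.askR PTime.id)) c e) (UPoly.tb e) (fun z hz => ?_)
        fun z y hV => decide_eq_true ⟨y, hV⟩
      obtain ⟨y, hy⟩ := of_decide_eq_true hz
      refine ⟨y, ?_, hy⟩
      unfold simV at hy
      rw [Bool.and_eq_true, decide_eq_true_iff] at hy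
      exact hy.1.trans (Nat.pow_le_pow_left (Nat.add_le_add_right (fstS_le z) 2) _)
    · obtain ⟨g1, g2⟩ := adv_num x.length e cE
      have h1 : ∀ y : List Bool, y.length ≤ (x.length + 2) ^ e →
          (Accepts (join R B') c x y ((x.length + 2) ^ e) ↔
            Accepts (OvE R E u) c x y ((x.length + 2) ^ e)) := by
        intro y hy
        refine accepts_congr (N := x.length + 2 * (x.length + 2) ^ e) (by omega) (by omega) ?_
        intro q hq
        rcases q with _ | ⟨b, q⟩
        · rfl
        · rw [List.length_cons] at hq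
          cases b with
          | false => rfl
          | true =>
            refine hBE q u (fun z hz => hu z (hz.trans ?_))
            exact (Nat.pow_le_pow_left (by omega) _).trans g2
      rw [Bool.eq_iff_iff, hc x, decide_eq_true_iff]
      refine exists_congr fun y => ?_
      rw [simV_iff]
      exact and_congr_right fun hy => h1 y hy

/-- the advice is not correct up to the length of the first component -/
noncomputable def Bad (B D : Lang) : Lang := fun z => @decide
  (∃ q : List Bool, q.length ≤ (fstS z).length ∧ B q ≠ D (pairS q (sndS z))) (Classical.dec _)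

theorem bad_true {B D : Lang} (z : List Bool) : Bad B D z = true ↔
    ∃ q : List Bool, q.length ≤ (fstS z).length ∧ B q ≠ D (pairS q (sndS z)) := by
  unfold Bad
  exact @decide_eq_true_iff _ (Classical.dec _)

theorem bad_iff {B D : Lang} (v u : List Bool) :
    Bad B D (pairS v u) = false ↔ Cor B D u v.length := by
  rw [← Bool.not_eq_true, bad_true, fstS_pair, sndS_pair]
  unfold Cor
  push Not
  rfl

theorem bad_inNP {R B D : Lang} : InNP (join R (join B D)) (Bad B D) := by
  have hB : PTime (join R (join B D)) (fun q : List Bool => B q) :=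
    (PTime.askR (B := join B D) (PTime.cons (PTime.const false) PTime.id)).of_eq fun _ => rfl
  have hD : PTime (join R (join B D)) (fun q : List Bool => D q) :=
    (PTime.askR (B := join B D) (PTime.cons (PTime.const true) PTime.id)).of_eq fun _ => rfl
  have h1 : PTime (join R (join B D)) (fun p : List Bool × List Bool => B p.2) :=
    hB.comp PTime.id.snd
  have h2 : PTime (join R (join B D)) (fun p : List Bool × List Bool =>
      D (pairS p.2 (sndS p.1))) :=
    hD.comp (p_pairS PTime.id.snd (PTime_sndS PTime.id.fst))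
  have h3 : PTime (join R (join B D)) (fun p : List Bool × List Bool =>
      decide (p.2.length ≤ (fstS p.1).length)) :=
    PTime.nat_le (PTime.length PTime.id.snd) (PTime.length (PTime_fstS PTime.id.fst))
  have hV : PTime (join R (join B D)) (fun p : List Bool × List Bool =>
      decide (p.2.length ≤ (fstS p.1).length) &&
        (if B p.2 = true then !(D (pairS p.2 (sndS p.1))) else D (pairS p.2 (sndS p.1)))) :=
    h3.and (PTime.ite h1 h2.not h2)
  have key : ∀ z y : List Bool, (decide (y.length ≤ (fstS z).length) &&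
        (if B y = true then !(D (pairS y (sndS z))) else D (pairS y (sndS z)))) = true ↔
      (y.length ≤ (fstS z).length ∧ B y ≠ D (pairS y (sndS z))) := by
    intro z y
    rw [Bool.and_eq_true, decide_eq_true_iff]
    refine and_congr_right fun _ => ?_
    cases B y <;> cases D (pairS y (sndS z)) <;> simp
  refine inNP_of hV UPoly.id (fun z hz => ?_) fun z y hy => ?_
  · obtain ⟨q, hq⟩ := (bad_true z).1 hz
    exact ⟨q, hq.1.trans (fstS_le z), (key z q).2 hq⟩
  · exact (bad_true z).2 ⟨y, (key z y).1 hy⟩

theorem pairS_len (x y : List Bool) : (pairS x y).length = 2 * x.length + 1 + y.length := by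
  unfold pairS RF.tag
  simp only [List.length_append, List.length_replicate, List.length_singleton]
  omega

/-- **A collapse with polynomial advice.** -/
theorem yap {R : Lang} {w : ℕ → List Bool} {e0 : ℕ} (hw : ∀ n, (w n).length ≤ (n + 2) ^ e0)
    (k : ℕ) (h : ∀ L, InSig R (k + 1) L → ∃ D, InSig R k D ∧ ∃ c : ℕ,
      ∀ (x : List Bool) (m : ℕ), (x.length + 2) ^ c ≤ m → L x = D (pairS x (w m))) :
    ∀ L, InSig R (k + 4) L → InSig R (k + 3) L := by
  rintro L ⟨B3, hB3, c, e, -, hc⟩
  obtain ⟨B, hB, hU⟩ := up_of_sig (k + 1) 2 B3 hB3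
  obtain ⟨D, hD, cD, hDc⟩ := h B hB
  obtain ⟨E, hE, cE, hEc⟩ := up_adv (B := B) hD 2 B3 hU
  have hBad : InSig R (k + 2) (Bad B D) :=
    ⟨join B D, sig_join (k + 1) B D hB (InSig.succ k hD), bad_inNP⟩
  refine ⟨join (Bad B D) E, sig_join (k + 2) _ _ hBad hE, ?_⟩
  -- the verifier
  set X := join R (join (Bad B D) E) with hX
  have hR : PTime X (fun q : List Bool => R q) := PTime.lift (PTime.ask PTime.id)
  have hBX : PTime X (fun q : List Bool => Bad B D q) :=
    (PTime.askR (B := join (Bad B D) E) (PTime.cons (PTime.const false) PTime.id)).of_eq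
      fun _ => rfl
  have hEX : PTime X (fun q : List Bool => E q) :=
    (PTime.askR (B := join (Bad B D) E) (PTime.cons (PTime.const true) PTime.id)).of_eq
      fun _ => rfl
  set N : ℕ → ℕ := fun n => (n + 2) ^ ((e + 2) * (cE + 1)) with hN
  have hNU : PTime X (fun p : List Bool × List Bool => List.replicate (N p.1.length) true) := by
    have h1 : PTime X (fun p : List Bool × List Bool => List.replicate (N p.1.length) ()) :=
      (UPoly.tb ((e + 2) * (cE + 1))).comp PTime.id.fst
    refine (PTime.map (f := fun _ _ => true) h1 (PTime.const _)).of_eq fun p => ?_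
    rw [List.map_replicate]
  have hu : PTime X (fun p : List Bool × List Bool => fstS p.2) := PTime_fstS PTime.id.snd
  have hy : PTime X (fun p : List Bool × List Bool => sndS p.2) := PTime_sndS PTime.id.snd
  have hV : PTime X (fun p : List Bool × List Bool =>
      !(Bad B D (pairS (List.replicate (N p.1.length) true) (fstS p.2))) &&
        simV (OvE R E) c e (pairS p.1 (fstS p.2), sndS p.2)) :=
    (hBX.comp (p_pairS hNU hu)).not.and
      ((simV_ptime (OvE_ptime hR hEX) c e).comp ((p_pairS PTime.id.fst hu).pair hy))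
  -- correct advice gives the correct answer
  have hcor : ∀ x u y : List Bool, Cor B D u (N x.length) →
      (simV (OvE R E) c e (pairS x u, y) = true ↔
        y.length ≤ (x.length + 2) ^ e ∧ Accepts (join R B3) c x y ((x.length + 2) ^ e)) := by
    intro x u y hu
    obtain ⟨g1, g2⟩ := adv_num x.length e cE
    rw [simV_iff]
    refine and_congr_right fun hy => ?_
    refine accepts_congr (N := x.length + 2 * (x.length + 2) ^ e) (by omega) (by omega) ?_
    intro q hq
    rcases q with _ | ⟨b, q⟩
    · rfl
    · rw [List.length_cons] at hq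
      cases b with
      | false => rfl
      | true =>
        refine (hEc q u (fun z hz => hu z (hz.trans ?_))).symm
        exact (Nat.pow_le_pow_left (by omega) _).trans g2
  have hBU : UPoly X (fun n => 2 * ((N n + 2) ^ cD + 2) ^ e0 + 1 + (n + 2) ^ e) := by
    have h1 : UPoly X N := UPoly.tb _
    exact ((((UPoly.const 2).mul ((((h1.add (UPoly.const 2)).pow cD).add
      (UPoly.const 2)).pow e0)).add (UPoly.const 1)).add (UPoly.tb e))
  refine inNP_of hV hBU (fun x hx => ?_) fun x y hy => ?_
  · obtain ⟨y, hy1, hy2⟩ := (hc x).1 hx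
    set m := (N x.length + 2) ^ cD with hm
    have hC : Cor B D (w m) (N x.length) := by
      intro z hz
      exact hDc z m (Nat.pow_le_pow_left (by omega) _)
    refine ⟨pairS (w m) y, ?_, ?_⟩
    · rw [pairS_len]
      have := hw m
      omega
    · simp only
      rw [fstS_pair, sndS_pair, Bool.and_eq_true, Bool.not_eq_true']
      refine ⟨(bad_iff _ _).2 ?_, (hcor x (w m) y hC).2 ⟨hy1, hy2⟩⟩
      rw [List.length_replicate]
      exact hC
  · simp only at hy
    rw [Bool.and_eq_true, Bool.not_eq_true', bad_iff, List.length_replicate] at hy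
    exact (hc x).2 ⟨_, (hcor x (fstS y) (sndS y) hy.1).1 hy.2⟩

end Pool.Agent.SP
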